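import Pool.Agent.Work.MP_910138_ag.Main

/-! An exact autoequivalence of an admissible subcategory that is not of Fourier-Mukai type. -/

open CategoryTheory

namespace Pool.Agent.Results.MP_910138_ag.NonFM

open Pool.Agent.Work.MP_910138_ag

theorem result :
    ∃ (X : SmProj (ZMod 2)) (A : Admissible X.X) (F : A.Cat ⥤ A.Cat),
      IsExact A A F ∧ F.IsEquivalence ∧ ¬ IsFM X X A A F :=
  target

end Pool.Agent.Results.MP_910138_ag.NonFM
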