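import Pool.Agent.Work.MP_910138_ag.C0.Main
import Pool.Agent.Work.MP_910138_ag.C0.Der2
import Pool.Agent.Work.MP_910138_ag.C0.LinBridge

/-! A linear exact autoequivalence of an admissible subcategory that is not of Fourier-Mukai type,
over every field that is imperfect or of characteristic zero and transcendental over the
rationals. -/

open CategoryTheory

namespace Pool.Agent.Results.MP_910138_ag.NonFMLinear

open Pool.Agent.Work.MP_910138_ag Pool.Agent.Work.MP_910138_ag.C0

theorem result (K : Type) [Field K] (hK : Algebra.Transcendental ℤ K ∨ ¬ PerfectField K) :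
    ∃ (X : SmProj K) (A : Admissible X.X) (F : A.Cat ⥤ A.Cat),
      IsExact A A F ∧ IsLinear X X A A F ∧ F.IsEquivalence ∧ ¬ IsFM X X A A F := by
  obtain ⟨ξ, hξ⟩ := exists_derivation_of K hK
  obtain ⟨X, A, F, h1, h2, h3, h4⟩ := target ξ hξ
  exact ⟨X, A, F, h1, (isLinear_iff X X A A F).2 h2, h3, h4⟩

end Pool.Agent.Results.MP_910138_ag.NonFMLinear
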